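import Pool.Agent.H7.TF.Basic
import Pool.Agent.H7.TF.Targets

/-!
# MP_7a929c_al, A5: restriction to a connected component
-/

set_option autoImplicit false

namespace Pool.Agent.H7.TF.A5aux

open Equiv

variable {D : Type}

theorem card_split [Finite D] (s : Setoid D) (p : D → Prop) (hp : ∀ x y, s x y → (p x ↔ p y)) :
    Nat.card (Quotient s) =
      Nat.card (Quotient (Setoid.comap (Subtype.val : {d // p d} → D) s)) +
      Nat.card (Quotient (Setoid.comap (Subtype.val : {d // ¬ p d} → D) s)) := by
  classical
  rw [← Nat.card_sum]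
  symm
  refine Nat.card_eq_of_bijective
    (Sum.elim
      (Quotient.lift (fun x : {d // p d} => (Quotient.mk s x.1))
        (fun a b h => Quotient.sound h))
      (Quotient.lift (fun x : {d // ¬ p d} => (Quotient.mk s x.1))
        (fun a b h => Quotient.sound h))) ⟨?_, ?_⟩
  · rintro (a | a) (b | b) hab
    · induction a using Quotient.inductionOn with
      | _ a =>
      induction b using Quotient.inductionOn with
      | _ b =>
      simp only [Sum.elim_inl, Quotient.lift_mk] at hab
      have h1 : s a.1 b.1 := Quotient.exact hab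
      exact congrArg Sum.inl (Quotient.sound h1)
    · induction a using Quotient.inductionOn with
      | _ a =>
      induction b using Quotient.inductionOn with
      | _ b =>
      simp only [Sum.elim_inl, Sum.elim_inr, Quotient.lift_mk] at hab
      exact absurd ((hp _ _ (Quotient.exact hab)).mp a.2) b.2
    · induction a using Quotient.inductionOn with
      | _ a =>
      induction b using Quotient.inductionOn with
      | _ b =>
      simp only [Sum.elim_inl, Sum.elim_inr, Quotient.lift_mk] at hab
      exact absurd ((hp _ _ (Quotient.exact hab)).mpr b.2) a.2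
    · induction a using Quotient.inductionOn with
      | _ a =>
      induction b using Quotient.inductionOn with
      | _ b =>
      simp only [Sum.elim_inr, Quotient.lift_mk] at hab
      have h1 : s a.1 b.1 := Quotient.exact hab
      exact congrArg Sum.inr (Quotient.sound h1)
  · intro q
    induction q using Quotient.inductionOn with
    | _ x =>
    by_cases hx : p x
    · exact ⟨Sum.inl (Quotient.mk _ ⟨x, hx⟩), rfl⟩
    · exact ⟨Sum.inr (Quotient.mk _ ⟨x, hx⟩), rfl⟩

theorem setoid_subtypePerm (α : Perm D) (p : D → Prop) (h : ∀ d, p (α d) ↔ p d) :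
    Perm.SameCycle.setoid (α.subtypePerm h) =
      Setoid.comap (Subtype.val : {d // p d} → D) (Perm.SameCycle.setoid α) := by
  ext a b
  exact Perm.sameCycle_subtypePerm

theorem conn_subtypePerm [Finite D] (α β : Perm D) (p : D → Prop) (hα : ∀ d, p (α d) ↔ p d)
    (hβ : ∀ d, p (β d) ↔ p d) :
    conn (α.subtypePerm hα) (β.subtypePerm hβ) =
      Setoid.comap (Subtype.val : {d // p d} → D) (conn α β) := by
  apply le_antisymm
  · rw [conn, setoid_subtypePerm, setoid_subtypePerm]
    refine sup_le ?_ ?_
    · intro a b h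
      exact conn_of_sameCycle_left h
    · intro a b h
      exact conn_of_sameCycle_right h
  · intro a b h
    have h1 : b.1 ∈ {z | ∃ hz : p z, conn (α.subtypePerm hα) (β.subtypePerm hβ) a ⟨z, hz⟩} := by
      have h' : conn α β a.1 b.1 := h
      refine mem_of_conn (α := α) (β := β) ?_ ?_ ?_ h'
      · rintro z ⟨hz, hz'⟩
        refine ⟨(hα z).mpr hz, ?_⟩
        exact Setoid.trans' _ hz' (conn_left (α.subtypePerm hα) (β.subtypePerm hβ) ⟨z, hz⟩)
      · rintro z ⟨hz, hz'⟩
        refine ⟨(hβ z).mpr hz, ?_⟩
        exact Setoid.trans' _ hz' (conn_right (α.subtypePerm hα) (β.subtypePerm hβ) ⟨z, hz⟩)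
      · exact ⟨a.2, Setoid.refl' _ _⟩
    obtain ⟨hz, hz'⟩ := h1
    exact hz'

end Pool.Agent.H7.TF.A5aux

namespace Pool.Agent.H7.TF

open Equiv A5aux

theorem A5 (h2 : T_A2) : T_A5 := by
  classical
  intro D _ _ α β x0 hpl
  have hα : ∀ d, conn α β x0 (α d) ↔ conn α β x0 d := fun d =>
    ⟨fun h => Setoid.trans' _ h (Setoid.symm' _ (conn_left α β d)),
      fun h => Setoid.trans' _ h (conn_left α β d)⟩
  have hβ : ∀ d, conn α β x0 (β d) ↔ conn α β x0 d := fun d =>
    ⟨fun h => Setoid.trans' _ h (Setoid.symm' _ (conn_right α β d)),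
      fun h => Setoid.trans' _ h (conn_right α β d)⟩
  have hconn : ∀ a b : {d // conn α β x0 d}, conn (α.subtypePerm hα) (β.subtypePerm hβ) a b := by
    intro a b
    rw [conn_subtypePerm]
    exact Setoid.trans' (conn α β) (Setoid.symm' (conn α β) a.2) b.2
  refine ⟨hα, hβ, ?_, hconn⟩
  have hα' : ∀ d, ¬ conn α β x0 (α d) ↔ ¬ conn α β x0 d := fun d => not_congr (hα d)
  have hβ' : ∀ d, ¬ conn α β x0 (β d) ↔ ¬ conn α β x0 d := fun d => not_congr (hβ d)
  have hinv : ∀ x y, conn α β x y → (conn α β x0 x ↔ conn α β x0 y) := fun x y h =>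
    ⟨fun h' => Setoid.trans' _ h' h, fun h' => Setoid.trans' _ h' (Setoid.symm' _ h)⟩
  have e1 : nc α = nc (α.subtypePerm hα) + nc (α.subtypePerm (p := fun d => ¬ conn α β x0 d) hα') := by
    rw [nc, nc, nc, setoid_subtypePerm, setoid_subtypePerm]
    exact card_split _ _ fun x y h => hinv x y (conn_of_sameCycle_left h)
  have e2 : nc β = nc (β.subtypePerm hβ) + nc (β.subtypePerm (p := fun d => ¬ conn α β x0 d) hβ') := by
    rw [nc, nc, nc, setoid_subtypePerm, setoid_subtypePerm]
    exact card_split _ _ fun x y h => hinv x y (conn_of_sameCycle_right h)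
  have e3 : nc (α * β) = nc (α.subtypePerm hα * β.subtypePerm hβ) +
      nc (α.subtypePerm (p := fun d => ¬ conn α β x0 d) hα' *
        β.subtypePerm (p := fun d => ¬ conn α β x0 d) hβ') := by
    have h1 : ∀ d, conn α β x0 ((α * β) d) ↔ conn α β x0 d := fun d => by
      rw [Perm.mul_apply, hα, hβ]
    have h3 : α.subtypePerm hα * β.subtypePerm hβ = (α * β).subtypePerm h1 := by
      ext a; rfl
    have h4 : α.subtypePerm (p := fun d => ¬ conn α β x0 d) hα' *
        β.subtypePerm (p := fun d => ¬ conn α β x0 d) hβ' =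
        (α * β).subtypePerm (p := fun d => ¬ conn α β x0 d) (fun d => not_congr (h1 d)) := by
      ext a; rfl
    rw [h3, h4, nc, nc, nc, setoid_subtypePerm, setoid_subtypePerm]
    exact card_split _ _ fun x y h => hinv x y (conn_of_sameCycle_mul h)
  have e4 : comps α β = comps (α.subtypePerm hα) (β.subtypePerm hβ) +
      comps (α.subtypePerm (p := fun d => ¬ conn α β x0 d) hα')
        (β.subtypePerm (p := fun d => ¬ conn α β x0 d) hβ') := by
    rw [comps, comps, comps, conn_subtypePerm, conn_subtypePerm]
    exact card_split _ _ hinv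
  have e5 : Nat.card D = Nat.card {d // conn α β x0 d} + Nat.card {d // ¬ conn α β x0 d} := by
    rw [Nat.card_eq_fintype_card, Nat.card_eq_fintype_card, Nat.card_eq_fintype_card,
      Fintype.card_subtype_compl]
    have := Fintype.card_subtype_le (fun d => conn α β x0 d)
    omega
  have k1 := h2 {d // conn α β x0 d} (α.subtypePerm hα) (β.subtypePerm hβ)
  have k2 := h2 {d // ¬ conn α β x0 d} (α.subtypePerm (p := fun d => ¬ conn α β x0 d) hα')
    (β.subtypePerm (p := fun d => ¬ conn α β x0 d) hβ')
  unfold Planar at hpl ⊢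
  omega

end Pool.Agent.H7.TF
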