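import Pool.Agent.H7.TF.Basic
import Pool.Agent.H7.TF.Targets

/-!
# MP_7a929c_al, A8: the segments of a cut
-/

set_option autoImplicit false

namespace Pool.Agent.H7.TF

open Equiv

theorem A8 : T_A8 := by
  intro D _ _ σ θ ω O hc d hd
  have hpos := minimalPeriod_pos (ω * σ) d
  obtain ⟨n, hn⟩ : ∃ n, n + 1 = Function.minimalPeriod (ω * σ) d :=
    ⟨Function.minimalPeriod (ω * σ) d - 1, by omega⟩
  -- the points strictly inside are not in `O`
  have hnot : ∀ i, 1 ≤ i → i ≤ n → ((ω * σ) ^ i) d ∉ O := by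
    intro i h1 h2 hmem
    have hsc : (ω * σ).SameCycle (((ω * σ) ^ i) d) d := by
      exact (Perm.SameCycle.symm ⟨(i : ℤ), by simp⟩)
    have h3 := hc.uniq _ hmem _ hd hsc
    have h4 : Function.IsPeriodicPt (ω * σ) i d := by
      rw [Function.IsPeriodicPt, Function.IsFixedPt, iterate_eq_pow]; exact h3
    have h5 := Function.IsPeriodicPt.minimalPeriod_le (by omega) h4
    omega
  have hind : ∀ i, 1 ≤ i → i ≤ n → (σ ^ i) d ∉ O ∧ ((ω * σ) ^ i) d = (σ ^ i) d := by
    intro i
    induction i with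
    | zero => intro h; omega
    | succ i ih =>
      intro _ h2
      have hprev : ((ω * σ) ^ i) d = (σ ^ i) d := by
        rcases Nat.eq_zero_or_pos i with h0 | h0
        · subst h0; simp
        · exact (ih h0 (by omega)).2
      have hstep : ((ω * σ) ^ (i + 1)) d = ω ((σ ^ (i + 1)) d) := by
        rw [pow_succ', Perm.mul_apply, hprev, Perm.mul_apply, pow_succ' σ, Perm.mul_apply]
      have h6 := hnot (i + 1) (by omega) h2
      rw [hstep] at h6
      have h7 : (σ ^ (i + 1)) d ∉ O := fun h => h6 (hc.on _ h)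
      exact ⟨h7, by rw [hstep, hc.off _ h7]⟩
  have hprev : ((ω * σ) ^ n) d = (σ ^ n) d := by
    rcases Nat.eq_zero_or_pos n with h0 | h0
    · subst h0; simp
    · exact (hind n h0 le_rfl).2
  have hlast : ω ((σ ^ (n + 1)) d) = d := by
    have h8 : ((ω * σ) ^ (n + 1)) d = d := by rw [hn]; exact pow_minimalPeriod _ _
    rw [pow_succ', Perm.mul_apply, hprev, Perm.mul_apply] at h8
    rw [pow_succ', Perm.mul_apply]
    exact h8
  refine ⟨n, hn, hind, ?_, hlast⟩
  by_contra h9
  rw [hc.off _ h9] at hlast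
  rw [hlast] at h9
  exact h9 hd

end Pool.Agent.H7.TF
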