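import Pool.Agent.H13.TF.C6

/-!
# MP_7a929c_al, C3: counting at the vertices
-/

set_option autoImplicit false

namespace Pool.Agent.H7.TF

open Equiv C6aux

namespace C3aux

theorem card_le_of_imp {X : Type} [Finite X] {p q : X → Prop} (h : ∀ x, p x → q x) :
    Nat.card {x // p x} ≤ Nat.card {x // q x} :=
  Nat.card_le_card_of_injective (fun x : {x // p x} => (⟨x.1, h _ x.2⟩ : {x // q x}))
    (fun _ _ hab => Subtype.ext (congrArg (fun z : {x // q x} => z.1) hab))

theorem card_eq_zero_of {X : Type} {p : X → Prop} (h : ∀ x, ¬ p x) :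
    Nat.card {x // p x} = 0 := by
  have : IsEmpty {x // p x} := ⟨fun x => h x.1 x.2⟩
  exact Nat.card_of_isEmpty

theorem card_pos_of {X : Type} [Finite X] {p : X → Prop} {x : X} (h : p x) :
    0 < Nat.card {x // p x} :=
  have : Nonempty {x // p x} := ⟨⟨x, h⟩⟩
  Nat.card_pos

/-- `ω⁻¹` stays in `O` and in the vertex -/
theorem inv_pow_mem {D : Type} [Finite D] {σ θ ω : Perm D} {O : Set D} (hc : Cut σ θ ω O)
    {d : D} (hd : d ∈ O) (i : ℕ) : ((ω⁻¹) ^ i) d ∈ O ∧ σ.SameCycle (((ω⁻¹) ^ i) d) d := by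
  induction i with
  | zero => exact ⟨by simpa using hd, by simpa using Perm.SameCycle.refl σ d⟩
  | succ i ih =>
    rw [pow_succ', Perm.mul_apply]
    refine ⟨inv_mem_of_mapsTo hc.on ih.1, ?_⟩
    have h1 := hc.same (ω⁻¹ (((ω⁻¹) ^ i) d))
    rw [← Perm.mul_apply, mul_inv_cancel, Perm.one_apply] at h1
    exact h1.symm.trans ih.2

/-- the main local statement -/
theorem local_deep (h2 : T_C2) {P : Type} [Group P] (c : Ctx P) {d : c.D} (hd : d ∈ c.O)
    (hz : ∀ z, c.σ.SameCycle d z → c.kind z = none → lab c.σ c.h z ∈ c.Lb) :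
    4 ≤ Nat.card {x : c.D // Quotient.mk (Perm.SameCycle.setoid c.σ) x = Quotient.mk _ d ∧ x ∈ c.O} +
      3 * Nat.card {x : c.D // Quotient.mk (Perm.SameCycle.setoid c.σ) x = Quotient.mk _ d ∧
        (x ∈ c.O ∧ c.s < seg c.σ c.ω x)} := by
  classical
  set k := Function.minimalPeriod (c.ω⁻¹ : Perm c.D) d with hk
  have hkpos : 0 < k := minimalPeriod_pos _ _
  have hper : ((c.ω⁻¹) ^ k) d = d := pow_minimalPeriod _ _
  have hle : k ≤ Nat.card {x : c.D // Quotient.mk (Perm.SameCycle.setoid c.σ) x =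
      Quotient.mk _ d ∧ x ∈ c.O} := by
    have h1 : Nat.card (Fin k) = k := by simp
    rw [← h1]
    refine Nat.card_le_card_of_injective (fun i : Fin k => (⟨((c.ω⁻¹) ^ (i : ℕ)) d, ?_⟩ :
      {x : c.D // Quotient.mk (Perm.SameCycle.setoid c.σ) x = Quotient.mk _ d ∧ x ∈ c.O})) ?_
    · exact ⟨Quotient.sound (inv_pow_mem c.cut hd i).2, (inv_pow_mem c.cut hd i).1⟩
    · intro a b hab
      have h3 : ((c.ω⁻¹) ^ (a : ℕ)) d = ((c.ω⁻¹) ^ (b : ℕ)) d := congrArg Subtype.val hab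
      rw [← iterate_eq_pow, ← iterate_eq_pow] at h3
      exact Fin.ext (Function.iterate_injOn_Iio_minimalPeriod (f := (c.ω⁻¹ : Perm c.D)) (x := d) a.2 b.2 h3)
  by_cases h4 : 4 ≤ k
  · omega
  · obtain ⟨i, _, hi⟩ := h2 P c d hd hz k hkpos (by omega) hper
    have h5 : 0 < Nat.card {x : c.D // Quotient.mk (Perm.SameCycle.setoid c.σ) x =
        Quotient.mk _ d ∧ (x ∈ c.O ∧ c.s < seg c.σ c.ω x)} :=
      card_pos_of (x := ((c.ω⁻¹) ^ i) d)
        ⟨Quotient.sound (inv_pow_mem c.cut hd i).2, (inv_pow_mem c.cut hd i).1, hi⟩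
    omega

end C3aux

open C3aux

theorem C3 (h2 : T_C2) : T_C3 := by
  classical
  intro P _ c
  let V := Quotient (Perm.SameCycle.setoid c.σ)
  let vt : c.D → V := fun d => Quotient.mk _ d
  have hmt : mt c.σ c.O = ∑ v : V, (if ∃ x ∈ c.O, vt x = v then 1 else 0) := by
    rw [Finset.sum_boole]
    unfold mt
    rw [Nat.card_eq_fintype_card, Fintype.card_subtype]
    rfl
  have hO : ∑ v : V, Nat.card {x // vt x = v ∧ x ∈ c.O} = Nat.card c.O :=
    sum_card_fiber vt (fun d => d ∈ c.O)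
  have hdeep : ∑ v : V, Nat.card {x // vt x = v ∧ (x ∈ c.O ∧ c.s < seg c.σ c.ω x)} =
      Nat.card {d : c.D // d ∈ c.O ∧ c.s < seg c.σ c.ω d} :=
    sum_card_fiber vt (fun d => d ∈ c.O ∧ c.s < seg c.σ c.ω d)
  have hhole : ∑ v : V, Nat.card {x // vt x = v ∧ c.kind x = none} =
      Nat.card {d : c.D // c.kind d = none} :=
    sum_card_fiber vt (fun d => c.kind d = none)
  have hKB : ∑ v : V, Nat.card {x // vt x = v ∧ (x ∈ c.O ∧ ∃ z, c.σ.SameCycle x z ∧
      c.kind z = none)} = c.KB :=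
    sum_card_fiber vt (fun d => d ∈ c.O ∧ ∃ z, c.σ.SameCycle d z ∧ c.kind z = none)
  have hsc : ∀ {x y : c.D}, vt x = vt y → c.σ.SameCycle x y := fun h => Quotient.exact h
  constructor
  · rw [hmt, ← hO, ← hdeep, ← hhole, ← hKB, Finset.mul_sum, Finset.mul_sum, Finset.mul_sum,
      ← Finset.sum_add_distrib, ← Finset.sum_add_distrib, ← Finset.sum_add_distrib]
    refine Finset.sum_le_sum fun v _ => ?_
    by_cases hh : ∃ z, vt z = v ∧ c.kind z = none
    · obtain ⟨z, hz1, hz2⟩ := hh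
      have h1 : 0 < Nat.card {x // vt x = v ∧ c.kind x = none} := card_pos_of ⟨hz1, hz2⟩
      have h3 : Nat.card {x // vt x = v ∧ (x ∈ c.O ∧ ∃ z, c.σ.SameCycle x z ∧
          c.kind z = none)} ≤ Nat.card {x // vt x = v ∧ x ∈ c.O} :=
        card_le_of_imp fun x hx => ⟨hx.1, hx.2.1⟩
      split_ifs <;> omega
    · have h3 : Nat.card {x // vt x = v ∧ (x ∈ c.O ∧ ∃ z, c.σ.SameCycle x z ∧
          c.kind z = none)} = 0 := by
        refine card_eq_zero_of ?_
        rintro x ⟨hx, _, z, hz, hz'⟩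
        exact hh ⟨z, by rw [← hx]; exact Quotient.sound hz.symm, hz'⟩
      rw [h3]
      split_ifs with hm
      · obtain ⟨d, hd, rfl⟩ := hm
        have := local_deep h2 c hd (fun z hz hz' => absurd ⟨z, Quotient.sound hz.symm, hz'⟩ hh)
        have e1 : Nat.card {x // vt x = vt d ∧ x ∈ c.O} = Nat.card {x : c.D //
          Quotient.mk (Perm.SameCycle.setoid c.σ) x = Quotient.mk _ d ∧ x ∈ c.O} := rfl
        have e2 : Nat.card {x // vt x = vt d ∧ (x ∈ c.O ∧ c.s < seg c.σ c.ω x)} =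
          Nat.card {x : c.D // Quotient.mk (Perm.SameCycle.setoid c.σ) x = Quotient.mk _ d ∧
            (x ∈ c.O ∧ c.s < seg c.σ c.ω x)} := rfl
        rw [e1, e2]
        omega
      · omega
  · intro hall
    rw [hmt, ← hO, ← hdeep, Finset.mul_sum, Finset.mul_sum, ← Finset.sum_add_distrib]
    refine Finset.sum_le_sum fun v _ => ?_
    split_ifs with hm
    · obtain ⟨d, hd, rfl⟩ := hm
      have := local_deep h2 c hd (fun z _ hz' => hall z hz')
      simpa using this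
    · omega

end Pool.Agent.H7.TF
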