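import Pool.Agent.H7.TF.Basic
import Pool.Agent.H7.TF.Targets

/-!
# MP_7a929c_al, C6: totals over the regions
-/

set_option autoImplicit false

namespace Pool.Agent.H7.TF.C6aux

theorem sum_card_fiber {Q X : Type} [Fintype Q] [Finite X] (f : X → Q) (p : X → Prop) :
    ∑ q, Nat.card {x // f x = q ∧ p x} = Nat.card {x // p x} := by
  classical
  have := Fintype.ofFinite X
  have h1 : ∀ q, Nat.card {x // f x = q ∧ p x} =
      (Finset.univ.filter (fun x => f x = q ∧ p x)).card := by
    intro q
    rw [Nat.card_eq_fintype_card, Fintype.card_subtype]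
  have h2 : Nat.card {x // p x} = (Finset.univ.filter p).card := by
    rw [Nat.card_eq_fintype_card, Fintype.card_subtype]
  rw [h2, Finset.sum_congr rfl fun q _ => h1 q]
  rw [Finset.card_eq_sum_card_fiberwise (f := f) (t := Finset.univ) (by intro x _; simp)]
  refine Finset.sum_congr rfl fun q _ => ?_
  congr 1
  ext x
  simp only [Finset.mem_filter, Finset.mem_univ, true_and]
  tauto

end Pool.Agent.H7.TF.C6aux

namespace Pool.Agent.H7.TF

open Equiv C6aux

theorem C6 : T_C6 := by
  classical
  intro P _ c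
  refine ⟨inferInstance, ?_, ?_, ?_, ?_, ?_⟩
  · rw [comps, Nat.card_eq_fintype_card]
  · exact sum_card_fiber c.rg (fun d => d ∈ c.O)
  · exact sum_card_fiber c.rg (fun d => c.kind d = none)
  · let r : Quotient (Perm.SameCycle.setoid (c.ω * (c.σ * c.θ))) → c.Reg :=
      Quotient.lift c.rg (by
        intro a b h
        have h1 : (c.ω * (c.σ * c.θ)).SameCycle a b := h
        rw [← mul_assoc] at h1
        exact Quotient.sound (conn_of_sameCycle_mul h1))
    have h1 : ∀ q, c.tQ q = Nat.card
        {z : Quotient (Perm.SameCycle.setoid (c.ω * (c.σ * c.θ))) //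
          r z = q ∧ ∃ x ∈ c.O, Quotient.mk _ x = z} := by
      intro q
      unfold Ctx.tQ
      congr 1
      have : ∀ z : Quotient (Perm.SameCycle.setoid (c.ω * (c.σ * c.θ))),
          (∃ x ∈ c.O, Quotient.mk _ x = z ∧ c.rg x = q) ↔
            (r z = q ∧ ∃ x ∈ c.O, Quotient.mk _ x = z) := by
        intro z
        constructor
        · rintro ⟨x, hx, rfl, hq⟩
          exact ⟨hq, x, hx, rfl⟩
        · rintro ⟨hq, x, hx, rfl⟩
          exact ⟨x, hx, rfl, hq⟩
      simp only [this]
    rw [Finset.sum_congr rfl fun q _ => h1 q]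
    exact sum_card_fiber r _
  · exact sum_card_fiber c.rg (fun d => d ∈ c.O ∧ c.s < seg c.σ c.ω d)

end Pool.Agent.H7.TF
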